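import Mathlib
import Pool.Agent.H21.XiDef
import Pool.Agent.H21.XiLower

set_option autoImplicit false

open scoped ENNReal
open Filter Topology Pool.Agent.H21.Xi

namespace Pool.Agent.Results.MP_023270_nt.NotAlmostAllReal

/-- For every `λ < 0` a positive proportion of the zeros of the entire function `Ξ_λ` is
non-real, so the proportion of real zeros does not tend to `1`. -/
theorem result (lam : ℝ) (hlam : lam < 0) :
    Differentiable ℂ (XiL lam) ∧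
    (∃ (c C : ℝ) (θ : ℝ≥0∞), 0 < c ∧ θ < 1 ∧ ∀ᶠ T : ℝ in atTop,
      cnt (XiL lam) {z | z.im = 0 ∧ ‖z‖ ≤ T} ≤ ENNReal.ofReal (C * T * Real.log T) ∧
      ENNReal.ofReal (c * T * Real.log T) ≤ cnt (XiL lam) {z | z.im ≠ 0 ∧ |z.re| ≤ T} ∧
      cnt (XiL lam) {z | z.im = 0 ∧ ‖z‖ ≤ T} / cnt (XiL lam) {z | |z.re| ≤ T} ≤ θ) ∧
    ¬ Tendsto (fun T : ℝ =>
        cnt (XiL lam) {z | z.im = 0 ∧ ‖z‖ ≤ T} / cnt (XiL lam) {z | |z.re| ≤ T}) atTop (𝓝 1) := by
  obtain ⟨a, rfl⟩ : ∃ a : ℝ, lam = -a := ⟨-lam, by ring⟩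
  have ha : 0 < a := by linarith
  obtain ⟨C, hC, hup⟩ := real_upper a ha
  obtain ⟨c, hc, hlow⟩ := nonreal_lower a ha
  have hθ : ENNReal.ofReal (C / (C + c)) < 1 := by
    rw [ENNReal.ofReal_lt_one, div_lt_one (by positivity)]; linarith
  have key : ∀ᶠ T : ℝ in atTop,
      cnt (XiL (-a)) {z | z.im = 0 ∧ ‖z‖ ≤ T} ≤ ENNReal.ofReal (C * T * Real.log T) ∧
      ENNReal.ofReal (c * T * Real.log T) ≤ cnt (XiL (-a)) {z | z.im ≠ 0 ∧ |z.re| ≤ T} ∧
      cnt (XiL (-a)) {z | z.im = 0 ∧ ‖z‖ ≤ T} / cnt (XiL (-a)) {z | |z.re| ≤ T} ≤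
        ENNReal.ofReal (C / (C + c)) := by
    filter_upwards [hup, hlow, eventually_ge_atTop 1] with T h1 h2 hT
    refine ⟨h1, h2, ENNReal.div_le_of_le_mul ?_⟩
    have hadd : cnt (XiL (-a)) {z | z.im = 0 ∧ ‖z‖ ≤ T} +
        cnt (XiL (-a)) {z | z.im ≠ 0 ∧ |z.re| ≤ T} ≤ cnt (XiL (-a)) {z | |z.re| ≤ T} := by
      have hd : Disjoint {z : ℂ | z.im = 0 ∧ ‖z‖ ≤ T} {z | z.im ≠ 0 ∧ |z.re| ≤ T} :=
        Set.disjoint_left.2 fun z h h' => h'.1 h.1
      have := ENNReal.summable.tsum_union_disjoint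
        (f := fun z => ((analyticOrderAt (XiL (-a)) z : ℕ∞) : ℝ≥0∞)) hd ENNReal.summable
      unfold cnt
      rw [← this]
      refine cnt_mono _ ?_
      rintro z (h | h)
      · exact (Complex.abs_re_le_norm z).trans h.2
      · exact h.2
    obtain ⟨x, hx0, hx⟩ : ∃ x : ℝ, 0 ≤ x ∧
        cnt (XiL (-a)) {z | z.im = 0 ∧ ‖z‖ ≤ T} = ENNReal.ofReal x :=
      ⟨_, ENNReal.toReal_nonneg,
        (ENNReal.ofReal_toReal (ne_top_of_le_ne_top ENNReal.ofReal_ne_top h1)).symm⟩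
    have hTL : 0 ≤ T * Real.log T := mul_nonneg (by linarith) (Real.log_nonneg hT)
    rw [hx] at h1 hadd ⊢
    rw [ENNReal.ofReal_le_ofReal_iff (by nlinarith)] at h1
    calc ENNReal.ofReal x ≤ ENNReal.ofReal (C / (C + c) * (x + c * T * Real.log T)) := by
          apply ENNReal.ofReal_le_ofReal
          rw [div_mul_eq_mul_div, le_div_iff₀ (by positivity)]
          nlinarith
      _ = ENNReal.ofReal (C / (C + c)) *
          (ENNReal.ofReal x + ENNReal.ofReal (c * T * Real.log T)) := by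
          rw [ENNReal.ofReal_mul (by positivity), ENNReal.ofReal_add hx0 (by nlinarith)]
      _ ≤ _ := by
          gcongr
          exact le_trans (by gcongr) hadd
  refine ⟨differentiable_XiL a ha, ⟨c, C, _, hc, hθ, key⟩, fun h => ?_⟩
  exact absurd (le_of_tendsto h (key.mono fun T hT => hT.2.2)) (not_le.2 hθ)

end Pool.Agent.Results.MP_023270_nt.NotAlmostAllReal
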